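import Pool.Agent.Helper64.Cal.Kp
import Pool.Agent.Helper64.Cal.Hc

/-!
# The symbol map `A : L(X) → L(ℓ₂)`
-/

set_option autoImplicit false

open scoped ENNReal
open Filter Topology

namespace Pool.Agent.Helper64.Cal

namespace Sys

variable (S : Sys)

/-- test nodes: roots of weight `k` -/
noncomputable def tn (k : ℕ) : ℕ := (S.rich_root k k).choose

lemma tn_ge (k : ℕ) : k ≤ S.tn k := (S.rich_root k k).choose_spec.1

lemma tn_age (k : ℕ) : S.age (S.tn k) = 0 := (S.rich_root k k).choose_spec.2.1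

lemma tn_w (k : ℕ) : S.w (S.tn k) = k := (S.rich_root k k).choose_spec.2.2

/-- test vectors in `X00` -/
noncomputable def tx (k : ℕ) (v : V) : X00 :=
  ⟨Finsupp.single (S.tn k) (tr (S.tn k) v), single_mem (fun i hi => by
    rw [tr_coord, if_neg (by omega)])⟩

lemma exists_tv (k : ℕ) : ∃ A : V →L[ℂ] S.X, (∀ v, A v = S.j (S.tx k v)) ∧ ‖A‖ ≤ 2 := by
  have hadd : ∀ u v : V, S.tx k (u + v) = S.tx k u + S.tx k v := by
    intro u v
    apply Subtype.ext
    show (Finsupp.single (S.tn k) (tr (S.tn k) (u + v)) : E) =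
      Finsupp.single (S.tn k) (tr (S.tn k) u) + Finsupp.single (S.tn k) (tr (S.tn k) v)
    rw [map_add, Finsupp.single_add]
  have hsmul : ∀ (c : ℂ) (v : V), S.tx k (c • v) = c • S.tx k v := by
    intro c v
    apply Subtype.ext
    show (Finsupp.single (S.tn k) (tr (S.tn k) (c • v)) : E) =
      c • Finsupp.single (S.tn k) (tr (S.tn k) v)
    rw [map_smul, Finsupp.smul_single]
  have hb : ∀ v : V, ‖S.j (S.tx k v)‖ ≤ 2 * ‖v‖ := by
    intro v
    apply S.norm_j_le (by positivity)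
    intro η
    have h1 : ‖S.e η (Finsupp.single (S.tn k) (tr (S.tn k) v))‖ ≤ 2 * ‖tr (S.tn k) v‖ :=
      S.single_bound _ _ _
    have h2 : ‖tr (S.tn k) v‖ ≤ ‖v‖ := by
      calc ‖tr (S.tn k) v‖ ≤ ‖tr (S.tn k)‖ * ‖v‖ := ContinuousLinearMap.le_opNorm _ _
        _ ≤ 1 * ‖v‖ := by gcongr; exact norm_tr_le _
        _ = ‖v‖ := one_mul _
    exact h1.trans (by linarith)
  refine ⟨LinearMap.mkContinuous
    { toFun := fun v => S.j (S.tx k v)
      map_add' := fun u v => by rw [hadd, map_add]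
      map_smul' := fun c v => by rw [hsmul, map_smul]; rfl } 2 hb, fun v => rfl, ?_⟩
  exact LinearMap.mkContinuous_norm_le _ (by norm_num) _

/-- test vectors as a continuous linear map -/
noncomputable def tv (k : ℕ) : V →L[ℂ] S.X := (S.exists_tv k).choose

lemma tv_eq (k : ℕ) (v : V) : S.tv k v = S.j (S.tx k v) := (S.exists_tv k).choose_spec.1 v

lemma norm_tv_le (k : ℕ) : ‖S.tv k‖ ≤ 2 := (S.exists_tv k).choose_spec.2

/-- the symbol map -/
theorem exists_symbol : ∃ A : (S.X →L[ℂ] S.X) →L[ℂ] (V →L[ℂ] V),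
    ∀ (T : S.X →L[ℂ] S.X) (u v : V),
      Tendsto (fun k => inner ℂ v (Shd (S.dv (S.tn k) (T (S.tv k (Sh u)))))) (hyperfilter ℕ)
        (𝓝 (inner ℂ v (A T u))) := by
  have key : ∀ T : S.X →L[ℂ] S.X, ∃ B : V →L[ℂ] V, ‖B‖ ≤ 8 * ‖T‖ ∧ ∀ u v : V,
      Tendsto (fun k => inner ℂ v (Shd (S.dv (S.tn k) (T (S.tv k (Sh u)))))) (hyperfilter ℕ)
        (𝓝 (inner ℂ v (B u))) := by
    intro T
    obtain ⟨B, hB, hBt⟩ := exists_wot
      (fun k => Shd ∘L (S.dv (S.tn k)) ∘L T ∘L (S.tv k) ∘L Sh) (8 * ‖T‖) (by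
        intro k
        apply ContinuousLinearMap.opNorm_le_bound _ (by positivity)
        intro u
        show ‖Shd (S.dv (S.tn k) (T (S.tv k (Sh u))))‖ ≤ 8 * ‖T‖ * ‖u‖
        calc ‖Shd (S.dv (S.tn k) (T (S.tv k (Sh u))))‖
            ≤ ‖S.dv (S.tn k) (T (S.tv k (Sh u)))‖ := norm_Shd_le _
          _ ≤ ‖S.dv (S.tn k)‖ * ‖T (S.tv k (Sh u))‖ := ContinuousLinearMap.le_opNorm _ _
          _ ≤ 4 * (‖T‖ * (2 * ‖u‖)) := by
              gcongr
              · exact S.norm_dv_le _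
              · calc ‖T (S.tv k (Sh u))‖ ≤ ‖T‖ * ‖S.tv k (Sh u)‖ :=
                      ContinuousLinearMap.le_opNorm _ _
                  _ ≤ ‖T‖ * (2 * ‖u‖) := by
                      gcongr
                      calc ‖S.tv k (Sh u)‖ ≤ ‖S.tv k‖ * ‖Sh u‖ :=
                            ContinuousLinearMap.le_opNorm _ _
                        _ ≤ 2 * ‖u‖ := by
                            rw [norm_Sh]
                            gcongr
                            exact S.norm_tv_le _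
          _ = 8 * ‖T‖ * ‖u‖ := by ring)
    exact ⟨B, hB, hBt⟩
  choose B hB hBt using key
  have hadd : ∀ T T' : S.X →L[ℂ] S.X, B (T + T') = B T + B T' := by
    intro T T'
    apply ContinuousLinearMap.ext
    intro u
    apply ext_inner_left ℂ
    intro v
    refine tendsto_nhds_unique (hBt (T + T') u v) ?_
    have h := (hBt T u v).add (hBt T' u v)
    rw [ContinuousLinearMap.add_apply, inner_add_right]
    refine h.congr (fun k => ?_)
    rw [ContinuousLinearMap.add_apply, map_add, map_add, inner_add_right]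
  have hsmul : ∀ (c : ℂ) (T : S.X →L[ℂ] S.X), B (c • T) = c • B T := by
    intro c T
    apply ContinuousLinearMap.ext
    intro u
    apply ext_inner_left ℂ
    intro v
    refine tendsto_nhds_unique (hBt (c • T) u v) ?_
    have h := (hBt T u v).const_mul c
    rw [ContinuousLinearMap.smul_apply, inner_smul_right]
    refine h.congr (fun k => ?_)
    rw [ContinuousLinearMap.smul_apply, map_smul, map_smul, inner_smul_right]
  refine ⟨LinearMap.mkContinuous
    { toFun := B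
      map_add' := hadd
      map_smul' := hsmul } 8 hB, fun T u v => hBt T u v⟩

/-- the symbol -/
noncomputable def A : (S.X →L[ℂ] S.X) →L[ℂ] (V →L[ℂ] V) := S.exists_symbol.choose

lemma A_tendsto (T : S.X →L[ℂ] S.X) (u v : V) :
    Tendsto (fun k => inner ℂ v (Shd (S.dv (S.tn k) (T (S.tv k (Sh u)))))) (hyperfilter ℕ)
      (𝓝 (inner ℂ v (S.A T u))) := S.exists_symbol.choose_spec T u v

lemma dv_tv (k : ℕ) (v : V) : S.dv (S.tn k) (S.tv k v) = tr (S.tn k) v := by
  rw [S.tv_eq, S.dv_j]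
  show (Finsupp.single (S.tn k) (tr (S.tn k) v) : E) (S.tn k) = _
  rw [Finsupp.single_eq_same]

lemma tr_tn_tendsto (v : V) : Tendsto (fun k => tr (S.tn k) v) (hyperfilter ℕ) (𝓝 v) := by
  have h1 : Tendsto S.tn atTop atTop := tendsto_atTop_mono S.tn_ge tendsto_id
  exact ((tr_tendsto v).comp h1).mono_left Nat.hyperfilter_le_atTop

lemma A_one : S.A 1 = 1 := by
  apply ContinuousLinearMap.ext
  intro u
  apply ext_inner_left ℂ
  intro v
  refine tendsto_nhds_unique (S.A_tendsto 1 u v) ?_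
  have h1 : Tendsto (fun k => inner ℂ v (Shd (tr (S.tn k) (Sh u)))) (hyperfilter ℕ)
      (𝓝 (inner ℂ v (Shd (Sh u)))) :=
    Tendsto.inner tendsto_const_nhds ((Shd.continuous.tendsto _).comp (S.tr_tn_tendsto (Sh u)))
  rw [Shd_Sh] at h1
  refine h1.congr (fun k => ?_)
  rw [ContinuousLinearMap.one_apply, S.dv_tv]

lemma A_kop {N : ℕ} {K : V →L[ℂ] V} (hK : IsM N K) : S.A (S.kop N K) = Shd ∘L K ∘L Sh := by
  apply ContinuousLinearMap.ext
  intro u
  apply ext_inner_left ℂ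
  intro v
  refine tendsto_nhds_unique (S.A_tendsto (S.kop N K) u v) ?_
  have h1 : Tendsto (fun k => inner ℂ v (Shd (K (tr (S.tn k) (Sh u))))) (hyperfilter ℕ)
      (𝓝 (inner ℂ v (Shd (K (Sh u))))) :=
    Tendsto.inner tendsto_const_nhds
      ((Shd.continuous.tendsto _).comp ((K.continuous.tendsto _).comp (S.tr_tn_tendsto (Sh u))))
  refine h1.congr' ?_
  have h2 : ∀ᶠ k in hyperfilter ℕ, N ≤ k := Nat.hyperfilter_le_atTop (eventually_ge_atTop N)
  filter_upwards [h2] with k hk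
  rw [S.dv_kop hK (hk.trans (S.tn_ge k)), S.dv_tv]

lemma tx_coord (k : ℕ) (v : V) (i : ℕ) (hi : S.tn k < i) : (tr (S.tn k) v) i = 0 := by
  rw [tr_coord, if_neg (by omega)]

lemma norm_tr_tn_le (k : ℕ) {v : V} (hv : ‖v‖ ≤ 1) : ‖tr (S.tn k) v‖ ≤ 1 := by
  calc ‖tr (S.tn k) v‖ ≤ ‖tr (S.tn k)‖ * ‖v‖ := ContinuousLinearMap.le_opNorm _ _
    _ ≤ 1 * 1 := by gcongr; exact norm_tr_le _
    _ = 1 := one_mul _

lemma A_compact {R : S.X →L[ℂ] S.X} (hR : IsCompactOperator R) : S.A R = 0 := by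
  have h1 : ∀ u : V, ‖u‖ ≤ 1 → S.A R u = 0 := by
    intro u hu
    apply ext_inner_left ℂ
    intro v
    refine tendsto_nhds_unique (S.A_tendsto R u v) ?_
    rw [inner_zero_right]
    rw [Metric.tendsto_nhds]
    intro ε hε
    obtain ⟨J, hJ⟩ := wn S R hR (C := 6) (by norm_num) (ε := ε / (8 * (‖v‖ + 1)))
      (by positivity)
    have h2 : ∀ᶠ k in hyperfilter ℕ, J ≤ k := Nat.hyperfilter_le_atTop (eventually_ge_atTop J)
    filter_upwards [h2] with k hk
    have h3 : RT S 6 J (S.tx k (Sh u)) :=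
      test_RT S (S.tn_age k) (by rw [S.tn_w]; exact hk) (S.tx_coord k _)
        (S.norm_tr_tn_le k (by rw [norm_Sh]; exact hu))
    have h4 := hJ _ h3
    rw [dist_zero_right, S.tv_eq]
    have hv1 : 0 ≤ ‖v‖ := norm_nonneg _
    calc ‖inner ℂ v (Shd (S.dv (S.tn k) (R (S.j (S.tx k (Sh u))))))‖
        ≤ ‖v‖ * ‖Shd (S.dv (S.tn k) (R (S.j (S.tx k (Sh u)))))‖ := norm_inner_le_norm _ _
      _ ≤ ‖v‖ * ‖S.dv (S.tn k) (R (S.j (S.tx k (Sh u))))‖ := by
          gcongr
          exact norm_Shd_le _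
      _ ≤ ‖v‖ * (‖S.dv (S.tn k)‖ * ‖R (S.j (S.tx k (Sh u)))‖) := by
          gcongr
          exact ContinuousLinearMap.le_opNorm _ _
      _ ≤ ‖v‖ * (4 * (ε / (8 * (‖v‖ + 1)))) := by
          gcongr
          exact S.norm_dv_le _
      _ = (‖v‖ / (‖v‖ + 1)) * (ε / 2) := by
          field_simp
          ring
      _ ≤ 1 * (ε / 2) := by
          gcongr
          rw [div_le_one (by positivity)]
          linarith
      _ < ε := by linarith
  apply ContinuousLinearMap.ext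
  intro u
  rw [ContinuousLinearMap.zero_apply]
  by_cases hu : u = 0
  · rw [hu, map_zero]
  have hu0 : ‖u‖ ≠ 0 := norm_ne_zero_iff.2 hu
  have h2 : u = (‖u‖ : ℂ) • ((‖u‖ : ℂ)⁻¹ • u) := by
    rw [smul_smul, mul_inv_cancel₀ (by exact_mod_cast hu0), one_smul]
  rw [h2, map_smul, h1 _ ?_, smul_zero]
  rw [norm_smul, norm_inv, Complex.norm_real, norm_norm, inv_mul_cancel₀ hu0]

/-- flexible limit of `T` minus symbol is compact -/
theorem A_sub_compact (T : S.X →L[ℂ] S.X) (c : ℂ)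
    (hc : ∀ C : ℝ, 0 ≤ C → ∀ ε : ℝ, 0 < ε → ∃ J, ∀ x : X00, RF S C J x →
      ‖T (S.j x) - c • S.j x‖ ≤ ε) : IsCompactOperator (S.A T - c • (1 : V →L[ℂ] V)) := by
  apply compact_of_tail
  intro ε hε
  obtain ⟨J, hJ⟩ := hc 6 (by norm_num) (ε / 4) (by positivity)
  refine ⟨J, ?_⟩
  have h1 : ∀ u : V, ‖u‖ ≤ 1 → (∀ i, i ≤ J → u i = 0) →
      ‖(S.A T - c • (1 : V →L[ℂ] V)) u‖ ≤ ε := by
    intro u hu hu0
    have hSh : ∀ i, 1 ≤ i → i ≤ J → (Sh u) i = 0 := by
      intro i hi hiJ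
      obtain ⟨i, rfl⟩ : ∃ i', i = i' + 1 := ⟨i - 1, by omega⟩
      rw [Sh_coord_succ]
      exact hu0 i (by omega)
    have h2 : ∀ v : V, ‖inner ℂ v ((S.A T - c • (1 : V →L[ℂ] V)) u)‖ ≤ ‖v‖ * ε := by
      intro v
      have hlim : Tendsto (fun k => inner ℂ v (Shd (S.dv (S.tn k) (T (S.tv k (Sh u))))) -
          c * inner ℂ v (Shd (S.dv (S.tn k) (S.tv k (Sh u))))) (hyperfilter ℕ)
          (𝓝 (inner ℂ v ((S.A T - c • (1 : V →L[ℂ] V)) u))) := by
        have h3 : inner ℂ v ((S.A T - c • (1 : V →L[ℂ] V)) u) =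
            inner ℂ v (S.A T u) - c * inner ℂ v u := by
          rw [ContinuousLinearMap.sub_apply, ContinuousLinearMap.smul_apply,
            ContinuousLinearMap.one_apply, inner_sub_right, inner_smul_right]
        rw [h3]
        refine (S.A_tendsto T u v).sub (Tendsto.const_mul c ?_)
        have h4 := S.A_tendsto 1 u v
        rw [S.A_one] at h4
        exact h4
      refine le_of_tendsto hlim.norm ?_
      have h5 : ∀ᶠ k in hyperfilter ℕ, J ≤ k := Nat.hyperfilter_le_atTop (eventually_ge_atTop J)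
      filter_upwards [h5] with k hk
      have h6 : RF S 6 J (S.tx k (Sh u)) :=
        test_RF S (S.tn_age k) (by rw [S.tn_w]; exact hk) (S.tx_coord k _)
          (S.norm_tr_tn_le k (by rw [norm_Sh]; exact hu)) (by
            intro i hi hiJ
            rw [tr_coord, if_pos (hiJ.trans (hk.trans (S.tn_ge k)))]
            exact hSh i hi hiJ)
      have h7 := hJ _ h6
      rw [S.tv_eq]
      have h8 : inner ℂ v (Shd (S.dv (S.tn k) (T (S.j (S.tx k (Sh u)))))) -
          c * inner ℂ v (Shd (S.dv (S.tn k) (S.j (S.tx k (Sh u))))) =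
          inner ℂ v (Shd (S.dv (S.tn k)
            (T (S.j (S.tx k (Sh u))) - c • S.j (S.tx k (Sh u))))) := by
        rw [map_sub, map_sub, map_smul, map_smul, inner_sub_right, inner_smul_right]
      rw [h8]
      calc ‖inner ℂ v (Shd (S.dv (S.tn k)
            (T (S.j (S.tx k (Sh u))) - c • S.j (S.tx k (Sh u)))))‖
          ≤ ‖v‖ * ‖Shd (S.dv (S.tn k)
            (T (S.j (S.tx k (Sh u))) - c • S.j (S.tx k (Sh u))))‖ := norm_inner_le_norm _ _
        _ ≤ ‖v‖ * ‖S.dv (S.tn k) (T (S.j (S.tx k (Sh u))) - c • S.j (S.tx k (Sh u)))‖ := by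
            gcongr
            exact norm_Shd_le _
        _ ≤ ‖v‖ * (‖S.dv (S.tn k)‖ * ‖T (S.j (S.tx k (Sh u))) - c • S.j (S.tx k (Sh u))‖) := by
            gcongr
            exact ContinuousLinearMap.le_opNorm _ _
        _ ≤ ‖v‖ * (4 * (ε / 4)) := by
            gcongr
            exact S.norm_dv_le _
        _ = ‖v‖ * ε := by ring
    have h9 := h2 ((S.A T - c • (1 : V →L[ℂ] V)) u)
    rw [inner_self_eq_norm_sq_to_K] at h9
    rw [norm_pow, RCLike.norm_ofReal, abs_norm] at h9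
    by_contra hcon
    push Not at hcon
    have h10 : 0 < ‖(S.A T - c • (1 : V →L[ℂ] V)) u‖ := hε.trans hcon
    nlinarith
  intro u hu
  by_cases hu1 : u = 0
  · rw [hu1, map_zero, norm_zero, mul_zero]
  have hu0 : ‖u‖ ≠ 0 := norm_ne_zero_iff.2 hu1
  have h2 : u = (‖u‖ : ℂ) • ((‖u‖ : ℂ)⁻¹ • u) := by
    rw [smul_smul, mul_inv_cancel₀ (by exact_mod_cast hu0), one_smul]
  have h3 : ‖(S.A T - c • (1 : V →L[ℂ] V)) ((‖u‖ : ℂ)⁻¹ • u)‖ ≤ ε := by
    apply h1
    · rw [norm_smul, norm_inv, Complex.norm_real, norm_norm, inv_mul_cancel₀ hu0]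
    · intro i hi
      rw [lp.coeFn_smul, Pi.smul_apply, hu i hi, smul_zero]
  calc ‖(S.A T - c • (1 : V →L[ℂ] V)) u‖
      = ‖(S.A T - c • (1 : V →L[ℂ] V)) ((‖u‖ : ℂ) • ((‖u‖ : ℂ)⁻¹ • u))‖ := by rw [← h2]
    _ = ‖u‖ * ‖(S.A T - c • (1 : V →L[ℂ] V)) ((‖u‖ : ℂ)⁻¹ • u)‖ := by
        rw [map_smul, norm_smul, Complex.norm_real, norm_norm]
    _ ≤ ‖u‖ * ε := by gcongr
    _ = ε * ‖u‖ := by ring

end Sys

end Pool.Agent.Helper64.Cal
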